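import Mathlib

/-!
# Counting fixed roots

`σ` is an automorphism of an algebraically closed field `Ω` of characteristic zero, `q` a prime number, and
`rt q σ a` the number of the solutions of `x ^ q = a` with `σ x = x`.  For `a`, `b` fixed by `σ`, not zero, one has
`∑_{j < q} rt (a b^j) + rt b = rt a * rt b + q`.
-/

set_option autoImplicit false

namespace Pool.Agent.N599.HO

/-- the number of the solutions of `x ^ q = a` with `σ x = x` -/
noncomputable def rt {Ω : Type} [Field Ω] (q : ℕ) (σ : Ω ≃+* Ω) (a : Ω) : ℕ :=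
  Nat.card {x : Ω // x ^ q = a ∧ σ x = x}

section
variable {q : ℕ} [hq : Fact q.Prime]

/-- the number of the solutions of `k i + s = 0` -/
noncomputable def lin (k s : ZMod q) : ℕ := Nat.card {i : ZMod q // k * i + s = 0}

theorem lin_ne {k : ZMod q} (hk : k ≠ 0) (s : ZMod q) : lin k s = 1 := by
  unfold lin
  rw [Nat.card_eq_one_iff_exists]
  refine ⟨⟨-(k⁻¹ * s), ?_⟩, fun i => Subtype.ext ?_⟩
  · rw [mul_neg, ← mul_assoc, mul_inv_cancel₀ hk, one_mul, neg_add_cancel]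
  · have h1 := i.2
    have h2 : k * i.1 = -s := eq_neg_of_add_eq_zero_left h1
    change i.1 = -(k⁻¹ * s)
    rw [← mul_neg, ← h2, ← mul_assoc, inv_mul_cancel₀ hk, one_mul]

theorem lin_zero_zero : lin (0 : ZMod q) 0 = q := by
  unfold lin
  have h : ∀ i : ZMod q, (0 : ZMod q) * i + 0 = 0 := fun i => by rw [zero_mul, add_zero]
  rw [Nat.card_congr (Equiv.subtypeUnivEquiv h), Nat.card_zmod]

theorem lin_zero_ne {s : ZMod q} (hs : s ≠ 0) : lin (0 : ZMod q) s = 0 := by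
  unfold lin
  rw [Nat.card_eq_zero]
  left
  refine ⟨fun i => hs ?_⟩
  have := i.2
  rwa [zero_mul, zero_add] at this

theorem lin_sum (k s t : ZMod q) :
    ∑ j : Fin q, lin k (s + ((j : ℕ) : ZMod q) * t) + lin k t = lin k s * lin k t + q := by
  classical
  have hsum : ∑ j : Fin q, lin k (s + ((j : ℕ) : ZMod q) * t) = ∑ j : ZMod q, lin k (s + j * t) := by
    obtain ⟨m, rfl⟩ : ∃ m, q = m + 1 := ⟨q - 1, by have := hq.out.pos; omega⟩
    refine Finset.sum_congr rfl fun j _ => ?_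
    congr 3
    exact ZMod.natCast_zmod_val (n := m + 1) j
  rw [hsum]
  by_cases hk : k = 0
  · subst hk
    by_cases ht : t = 0
    · subst ht
      simp only [mul_zero, add_zero]
      rw [Finset.sum_const, Finset.card_univ, ZMod.card, smul_eq_mul, lin_zero_zero]
      by_cases hs : s = 0
      · subst hs
        rw [lin_zero_zero]
      · rw [lin_zero_ne hs]; ring
    · rw [lin_zero_ne ht, mul_zero, zero_add, add_zero]
      rw [Finset.sum_eq_single (-(s * t⁻¹))]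
      · have h1 : s + -(s * t⁻¹) * t = 0 := by
          rw [neg_mul, mul_assoc, inv_mul_cancel₀ ht, mul_one, add_neg_cancel]
        rw [h1, lin_zero_zero]
      · intro j _ hj
        apply lin_zero_ne
        intro h
        apply hj
        have h2 : j * t = -s := by rw [eq_neg_iff_add_eq_zero, add_comm]; exact h
        rw [← neg_mul, ← h2, mul_assoc, mul_inv_cancel₀ ht, mul_one]
      · intro h
        exact absurd (Finset.mem_univ _) h
  · rw [lin_ne hk, lin_ne hk, Finset.sum_congr rfl fun j _ => lin_ne hk _, Finset.sum_const,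
      Finset.card_univ, ZMod.card, smul_eq_mul]
    ring

variable {Ω : Type} [Field Ω] {ζ : Ω} (hζ : IsPrimitiveRoot ζ q)

/-- the powers of `ζ` -/
def pw (ζ : Ω) (i : ZMod q) : Ω := ζ ^ i.val

include hζ

theorem pw_cast (m : ℕ) : pw (q := q) ζ (m : ZMod q) = ζ ^ m := by
  unfold pw
  rw [ZMod.val_natCast]
  exact (pow_eq_pow_mod m hζ.pow_eq_one).symm

theorem pw_add (i j : ZMod q) : pw ζ (i + j) = pw ζ i * pw ζ j := by
  have h1 : i + j = ((i.val + j.val : ℕ) : ZMod q) := by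
    rw [Nat.cast_add, ZMod.natCast_zmod_val, ZMod.natCast_zmod_val]
  rw [h1, pw_cast hζ, pow_add]
  rfl

theorem pw_natMul (m : ℕ) (i : ZMod q) : pw ζ ((m : ZMod q) * i) = pw ζ i ^ m := by
  have h1 : (m : ZMod q) * i = ((i.val * m : ℕ) : ZMod q) := by
    rw [Nat.cast_mul, ZMod.natCast_zmod_val, mul_comm]
  rw [h1, pw_cast hζ, pow_mul]
  rfl

theorem pw_inj {i j : ZMod q} (h : pw ζ i = pw ζ j) : i = j := by
  unfold pw at h
  exact ZMod.val_injective q (hζ.pow_inj (ZMod.val_lt i) (ZMod.val_lt j) h)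

theorem pw_ne_zero (i : ZMod q) : pw ζ i ≠ 0 := pow_ne_zero _ (hζ.ne_zero hq.out.ne_zero)

theorem exists_pw {x : Ω} (hx : x ^ q = 1) : ∃ i : ZMod q, x = pw ζ i := by
  obtain ⟨i, hi, h⟩ := hζ.eq_pow_of_pow_eq_one hx
  exact ⟨(i : ZMod q), by rw [pw_cast hζ, h]⟩

theorem exists_shift (σ : Ω ≃+* Ω) {a x : Ω} (ha : a ≠ 0) (hσ : σ a = a) (hx : x ^ q = a) :
    ∃ s : ZMod q, σ x = pw ζ s * x := by
  have hx0 : x ≠ 0 := by
    rintro rfl
    rw [zero_pow hq.out.ne_zero] at hx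
    exact ha hx.symm
  obtain ⟨s, hs⟩ := exists_pw hζ (x := σ x / x) (by
    rw [div_pow, ← map_pow, hx, hσ, div_self ha])
  exact ⟨s, by rw [← hs, div_mul_cancel₀ _ hx0]⟩

theorem rt_eq (σ : Ω ≃+* Ω) {k : ZMod q} (hk : σ ζ = pw ζ (k + 1)) {a x : Ω} (ha : a ≠ 0)
    (hx : x ^ q = a) {s : ZMod q} (hs : σ x = pw ζ s * x) : rt q σ a = lin k s := by
  have hx0 : x ≠ 0 := by
    rintro rfl
    rw [zero_pow hq.out.ne_zero] at hx
    exact ha hx.symm
  have hpw1 : ∀ i : ZMod q, pw ζ i ^ q = 1 := fun i => by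
    unfold pw
    rw [← pow_mul, mul_comm, pow_mul, hζ.pow_eq_one, one_pow]
  have hfix : ∀ i : ZMod q, σ (pw ζ i * x) = pw ζ i * x ↔ k * i + s = 0 := by
    intro i
    have h1 : σ (pw ζ i * x) = pw ζ ((k + 1) * i + s) * x := by
      rw [map_mul, hs]
      have h2 : σ (pw ζ i) = pw ζ ((k + 1) * i) := by
        have h3 : (k + 1) * i = (i.val : ZMod q) * (k + 1) := by
          rw [ZMod.natCast_zmod_val, mul_comm]
        rw [h3, pw_natMul hζ, ← hk, ← map_pow]
        rfl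
      rw [h2, ← mul_assoc, ← pw_add hζ]
    rw [h1, mul_left_inj' hx0]
    constructor
    · intro h
      have h4 := pw_inj hζ h
      linear_combination h4
    · intro h
      congr 1
      linear_combination h
  unfold rt lin
  symm
  refine Nat.card_congr (Equiv.ofBijective
    (fun i : {i : ZMod q // k * i + s = 0} => (⟨pw ζ i.1 * x, ?_, (hfix i.1).2 i.2⟩ :
      {x : Ω // x ^ q = a ∧ σ x = x})) ⟨?_, ?_⟩)
  · rw [mul_pow, hpw1, one_mul, hx]
  · intro i j hij
    have h1 := congrArg Subtype.val hij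
    exact Subtype.ext (pw_inj hζ (mul_right_cancel₀ hx0 h1))
  · rintro ⟨y, hy, hσy⟩
    obtain ⟨i, hi⟩ := exists_pw hζ (x := y / x) (by
      rw [div_pow, hy, hx, div_self ha])
    have h1 : y = pw ζ i * x := by rw [← hi, div_mul_cancel₀ _ hx0]
    refine ⟨⟨i, ?_⟩, Subtype.ext h1.symm⟩
    rw [← hfix, ← h1]
    exact hσy

end

/-- **The relation between the numbers of fixed roots.** -/
theorem rt_sum {q : ℕ} (hq : q.Prime) {Ω : Type} [Field Ω] [IsAlgClosed Ω] [CharZero Ω] (σ : Ω ≃+* Ω)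
    {a b : Ω} (ha : a ≠ 0) (hb : b ≠ 0) (hσa : σ a = a) (hσb : σ b = b) :
    ∑ j : Fin q, rt q σ (a * b ^ (j : ℕ)) + rt q σ b = rt q σ a * rt q σ b + q := by
  have : Fact q.Prime := ⟨hq⟩
  have : NeZero ((q : ℕ) : Ω) := ⟨Nat.cast_ne_zero.2 hq.ne_zero⟩
  obtain ⟨ζ, hζ⟩ := HasEnoughRootsOfUnity.exists_primitiveRoot Ω q
  obtain ⟨x, hx⟩ := IsAlgClosed.exists_pow_nat_eq a hq.pos
  obtain ⟨y, hy⟩ := IsAlgClosed.exists_pow_nat_eq b hq.pos
  obtain ⟨k', hk'⟩ := exists_pw hζ (x := σ ζ) (by rw [← map_pow, hζ.pow_eq_one, map_one])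
  obtain ⟨k, rfl⟩ : ∃ k : ZMod q, k' = k + 1 := ⟨k' - 1, by ring⟩
  obtain ⟨s, hs⟩ := exists_shift hζ σ ha hσa hx
  obtain ⟨t, ht⟩ := exists_shift hζ σ hb hσb hy
  have h1 : ∀ j : Fin q, rt q σ (a * b ^ (j : ℕ)) = lin k (s + ((j : ℕ) : ZMod q) * t) := by
    intro j
    refine rt_eq hζ σ hk' (x := x * y ^ (j : ℕ)) (mul_ne_zero ha (pow_ne_zero _ hb)) ?_ ?_
    · rw [mul_pow, hx, ← pow_mul, mul_comm (j : ℕ) q, pow_mul, hy]
    · rw [map_mul, map_pow, hs, ht, mul_pow, pw_add hζ, pw_natMul hζ]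
      ring
  rw [Finset.sum_congr rfl fun j _ => h1 j, rt_eq hζ σ hk' ha hx hs, rt_eq hζ σ hk' hb hy ht]
  exact lin_sum k s t

end Pool.Agent.N599.HO
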