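import Pool.Agent.N19.BR.EqDefs

/-!
# A lower bound for the order of vanishing at `1 - k`

`M / K` is a finite Galois extension of number fields, `F` a field between `K` and `M` with at least `N` complex
places, `ρ` a representation of `Gal(M / K)` of dimension `n`.  The space `(V_χ ⊗ V^+)^{Gal(M / F)}`, whose
dimension is the order of vanishing of `L(s, χ|_F)` at `1 - k`, has dimension at least `n N`.
-/

set_option autoImplicit false

namespace Pool.Agent.N599.HO.Eq

open NumberField IsDedekindDomain Module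
open Pool.Agent.N19.BR.EqDef

section
variable (k : ℕ) {K : Type} [Field K]
  {M : Type} [Field M] [Algebra K M] {n : ℕ}
  (ρ : Gal(M/K) →* Matrix (Fin n) (Fin n) ℂ)
  {F : Type} [Field F] [Algebra K F] (f : F →ₐ[K] M)

/-- The dimension of `(V_χ ⊗ V^+)^{Gal(M / F)}`, which is the order of vanishing of `L(s, χ|_F)` at `1 - k`,
is at least `N`. -/
def OrderAtLeast (N : ℕ) : Prop :=
  ∃ u : Fin N → Fin n → (M →+* ℂ) → ℂ, LinearIndependent ℂ u ∧ ∀ l, InHoms k ρ f (u l)

end

section
variable {k : ℕ} {K : Type} [Field K]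
  {M : Type} [Field M] [Algebra K M] {n : ℕ}
  {ρ : Gal(M/K) →* Matrix (Fin n) (Fin n) ℂ}
  {F : Type} [Field F] [Algebra K F] {f : F →ₐ[K] M}

theorem moveEmb_mul (σ τ : Gal(M/K)) (w : M →+* ℂ) :
    moveEmb (σ * τ) w = moveEmb σ (moveEmb τ w) := by
  ext x
  change w ((σ * τ)⁻¹ x) = w (τ⁻¹ (σ⁻¹ x))
  rw [mul_inv_rev, AlgEquiv.mul_apply]

theorem moveEmb_cancel (τ : Gal(M/K)) (w W : M →+* ℂ) : moveEmb τ w = moveEmb τ W ↔ w = W := by
  constructor
  · intro h
    have h1 := congrArg (moveEmb τ⁻¹) h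
    rw [← moveEmb_mul, ← moveEmb_mul, inv_mul_cancel] at h1
    have h2 : ∀ v : M →+* ℂ, moveEmb (1 : Gal(M/K)) v = v := fun v => by
      ext x
      change v ((1 : Gal(M/K))⁻¹ x) = v x
      rw [inv_one, AlgEquiv.one_apply]
    rwa [h2, h2] at h1
  · rintro rfl
    rfl

theorem moveEmb_one (v : M →+* ℂ) : moveEmb (1 : Gal(M/K)) v = v := by
  ext x
  change v ((1 : Gal(M/K))⁻¹ x) = v x
  rw [inv_one, AlgEquiv.one_apply]

theorem moveEmb_conj (σ : Gal(M/K)) (w : M →+* ℂ) :
    moveEmb σ ((starRingEnd ℂ).comp w) = (starRingEnd ℂ).comp (moveEmb σ w) := rfl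

variable (ρ f) in
open Classical in
/-- the equivariant family with value `x` at the embedding `w`, supported on the orbit of `w` -/
noncomputable def base [Fintype Gal(M/K)] (w : M →+* ℂ) (x : Fin n → ℂ) (i : Fin n) (W : M →+* ℂ) : ℂ :=
  ∑ σ : Gal(M/K), if (∀ y : F, σ (f y) = f y) ∧ moveEmb σ w = W then ((ρ σ).mulVec x) i else 0

theorem base_equiv [Fintype Gal(M/K)] (w : M →+* ℂ) (x : Fin n → ℂ) (τ : Gal(M/K))
    (hτ : ∀ y : F, τ (f y) = f y) (i : Fin n) (W : M →+* ℂ) :
    ∑ j, ρ τ i j * base ρ f w x j W = base ρ f w x i (moveEmb τ W) := by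
  classical
  unfold base
  simp only [Finset.mul_sum]
  rw [Finset.sum_comm]
  refine Fintype.sum_equiv (Equiv.mulLeft τ) _ _ fun σ => ?_
  have h1 : (∀ y : F, (τ * σ) (f y) = f y) ↔ ∀ y : F, σ (f y) = f y := by
    refine forall_congr' fun y => ?_
    rw [AlgEquiv.mul_apply]
    constructor
    · intro h
      exact τ.injective (by rw [h, hτ])
    · intro h
      rw [h, hτ]
  have h2 : moveEmb (τ * σ) w = moveEmb τ W ↔ moveEmb σ w = W := by
    rw [moveEmb_mul]
    exact moveEmb_cancel τ _ W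
  change _ = if (∀ y : F, (τ * σ) (f y) = f y) ∧ moveEmb (τ * σ) w = moveEmb τ W
    then ((ρ (τ * σ)).mulVec x) i else 0
  by_cases h : (∀ y : F, σ (f y) = f y) ∧ moveEmb σ w = W
  · rw [if_pos ⟨h1.2 h.1, h2.2 h.2⟩]
    simp only [if_pos h]
    rw [map_mul, ← Matrix.mulVec_mulVec]
    rfl
  · rw [if_neg fun h' => h ⟨h1.1 h'.1, h2.1 h'.2⟩]
    simp only [if_neg h, mul_zero, Finset.sum_const_zero]

theorem moveEmb_res (σ : Gal(M/K)) (w : M →+* ℂ) (hσ : ∀ y : F, σ (f y) = f y) :
    (moveEmb σ w).comp (f : F →+* M) = w.comp (f : F →+* M) := by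
  ext y
  have h1 : σ⁻¹ (f y) = f y := by
    have h2 := congrArg (σ⁻¹ : Gal(M/K)) (hσ y)
    rw [← AlgEquiv.mul_apply, inv_mul_cancel, AlgEquiv.one_apply] at h2
    exact h2.symm
  change w (σ⁻¹ (f y)) = w (f y)
  rw [h1]

theorem base_self [Fintype Gal(M/K)] (w : M →+* ℂ) (x : Fin n → ℂ) (i : Fin n) :
    base ρ f w x i w = x i := by
  classical
  unfold base
  rw [Finset.sum_eq_single (1 : Gal(M/K))]
  · rw [if_pos ⟨fun y => rfl, moveEmb_one w⟩, map_one, Matrix.one_mulVec]
  · intro σ _ hσ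
    rw [if_neg]
    rintro ⟨-, h2⟩
    apply hσ
    have h3 : σ⁻¹ = 1 := by
      ext x
      exact w.injective (DFunLike.congr_fun h2 x)
    exact inv_eq_one.1 h3
  · intro h
    exact absurd (Finset.mem_univ _) h

theorem base_other [Fintype Gal(M/K)] (w w' : M →+* ℂ)
    (hw : w.comp (f : F →+* M) ≠ w'.comp (f : F →+* M))
    (x : Fin n → ℂ) (i : Fin n) : base ρ f w x i w' = 0 := by
  classical
  unfold base
  refine Finset.sum_eq_zero fun σ _ => ?_
  rw [if_neg]
  rintro ⟨h1, h2⟩
  apply hw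
  rw [← h2, moveEmb_res σ w h1]

variable (k ρ f) in
/-- the element of `(V_χ ⊗ V^+)^H` -/
noncomputable def sym [Fintype Gal(M/K)] (w : M →+* ℂ) (x : Fin n → ℂ) (i : Fin n) (W : M →+* ℂ) : ℂ :=
  base ρ f w x i W + (-1) ^ (k - 1) * base ρ f w x i ((starRingEnd ℂ).comp W)

theorem conj_conj (W : M →+* ℂ) : (starRingEnd ℂ).comp ((starRingEnd ℂ).comp W) = W := by
  ext x
  exact Complex.conj_conj _

theorem sym_inHoms [Fintype Gal(M/K)] (w : M →+* ℂ) (x : Fin n → ℂ) : InHoms k ρ f (sym k ρ f w x) := by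
  refine ⟨fun i W => ?_, fun τ hτ i W => ?_⟩
  · unfold sym
    rw [conj_conj]
    have h1 : ((-1 : ℂ) ^ (k - 1)) * (-1) ^ (k - 1) = 1 := by
      rw [← mul_pow]; simp
    linear_combination (-base ρ f w x i ((starRingEnd ℂ).comp W)) * h1
  · unfold sym
    simp only [mul_add, Finset.sum_add_distrib]
    have h1 : ∀ j, ρ τ i j * ((-1) ^ (k - 1) * base ρ f w x j ((starRingEnd ℂ).comp W)) =
        (-1) ^ (k - 1) * (ρ τ i j * base ρ f w x j ((starRingEnd ℂ).comp W)) := fun j => by ring
    rw [Finset.sum_congr rfl fun j _ => h1 j, ← Finset.mul_sum, base_equiv w x τ hτ, base_equiv w x τ hτ,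
      moveEmb_conj]

end

/-- **The lower bound for the order.** -/
theorem order_ge {K : Type} [Field K] [NumberField K]
    {M : Type} [Field M] [NumberField M] [Algebra K M] {n : ℕ} (k : ℕ)
    (ρ : Gal(M/K) →* Matrix (Fin n) (Fin n) ℂ)
    {F : Type} [Field F] [NumberField F] [Algebra K F] (f : F →ₐ[K] M) {N : ℕ}
    (hN : N ≤ InfinitePlace.nrComplexPlaces F) : OrderAtLeast k ρ f (n * N) := by
  classical
  have hfin : FiniteDimensional K M := by
    have : IsScalarTower ℚ K M := inferInstance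
    exact FiniteDimensional.right ℚ K M
  have : Fintype Gal(M/K) := Fintype.ofFinite _
  let _ : Algebra F M := (f : F →+* M).toAlgebra
  have hFM : Algebra.IsAlgebraic F M := by
    have : IsScalarTower ℚ F M := inferInstance
    have h2 : FiniteDimensional F M := FiniteDimensional.right ℚ F M
    exact inferInstance
  have hsurj : ∀ v : F →+* ℂ, ∃ w : M →+* ℂ, w.comp (f : F →+* M) = v := by
    intro v
    let _ : Algebra F ℂ := v.toAlgebra
    refine ⟨(IsAlgClosed.lift (R := F) (S := M) (M := ℂ) : M →ₐ[F] ℂ), ?_⟩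
    ext y
    exact AlgHom.commutes (IsAlgClosed.lift (R := F) (S := M) (M := ℂ) : M →ₐ[F] ℂ) y
  choose up hup using hsurj
  have hcard : Fintype.card (Fin N) ≤ Fintype.card {v : InfinitePlace F // v.IsComplex} := by
    rw [Fintype.card_fin]
    exact hN
  obtain ⟨g⟩ := Function.Embedding.nonempty_of_card_le hcard
  let w : Fin N → (M →+* ℂ) := fun l => up (g l).1.embedding
  have hw : ∀ l, (w l).comp (f : F →+* M) = (g l).1.embedding := fun l => hup _
  have hne : ∀ l m, l ≠ m → (w l).comp (f : F →+* M) ≠ (w m).comp (f : F →+* M) := by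
    intro l m hlm h
    rw [hw, hw] at h
    apply hlm
    apply g.injective
    apply Subtype.ext
    rw [← InfinitePlace.mk_embedding (g l).1, ← InfinitePlace.mk_embedding (g m).1, h]
  have hne' : ∀ l m, (w l).comp (f : F →+* M) ≠ ((starRingEnd ℂ).comp (w m)).comp (f : F →+* M) := by
    intro l m h
    have h1 : ((starRingEnd ℂ).comp (w m)).comp (f : F →+* M) =
        ComplexEmbedding.conjugate (g m).1.embedding := by
      rw [← hw]; rfl
    rw [hw, h1] at h
    have h2 : InfinitePlace.mk (g l).1.embedding = InfinitePlace.mk (g m).1.embedding := by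
      rw [h, InfinitePlace.mk_conjugate_eq]
    rw [InfinitePlace.mk_embedding, InfinitePlace.mk_embedding] at h2
    rw [h2] at h
    have h3 := (g m).2
    rw [InfinitePlace.isComplex_iff] at h3
    exact h3 h.symm
  let u0 : Fin n × Fin N → Fin n → (M →+* ℂ) → ℂ := fun q => sym k ρ f (w q.2) (Pi.single q.1 1)
  have hu0 : ∀ q, InHoms k ρ f (u0 q) := fun q => sym_inHoms _ _
  have hlin : LinearIndependent ℂ u0 := by
    rw [Fintype.linearIndependent_iff]
    intro c hc q
    have h1 := congrFun (congrFun hc q.1) (w q.2)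
    rw [Finset.sum_apply, Finset.sum_apply] at h1
    rw [Finset.sum_eq_single q] at h1
    · have h2 : u0 q q.1 (w q.2) = 1 := by
        change base ρ f (w q.2) (Pi.single q.1 1) q.1 (w q.2) +
          (-1) ^ (k - 1) * base ρ f (w q.2) (Pi.single q.1 1) q.1 ((starRingEnd ℂ).comp (w q.2)) = 1
        rw [base_self, base_other _ _ (hne' _ _), Pi.single_eq_same, mul_zero, add_zero]
      rw [Pi.smul_apply, Pi.smul_apply, h2, smul_eq_mul, mul_one] at h1
      exact h1
    · intro r _ hr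
      have h2 : u0 r q.1 (w q.2) = 0 := by
        change base ρ f (w r.2) (Pi.single r.1 1) q.1 (w q.2) +
          (-1) ^ (k - 1) * base ρ f (w r.2) (Pi.single r.1 1) q.1 ((starRingEnd ℂ).comp (w q.2)) = 0
        rw [base_other _ _ (hne' _ _), mul_zero, add_zero]
        by_cases h3 : r.2 = q.2
        · rw [h3, base_self]
          have h4 : q.1 ≠ r.1 := fun h => hr (Prod.ext h.symm h3)
          exact Pi.single_eq_of_ne h4 _
        · exact base_other _ _ (hne _ _ h3) _ _
      rw [Pi.smul_apply, Pi.smul_apply, h2, smul_zero]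
    · intro h
      exact absurd (Finset.mem_univ _) h
  exact ⟨fun l => u0 (finProdFinEquiv.symm l), hlin.comp _ finProdFinEquiv.symm.injective, fun l => hu0 _⟩

end Pool.Agent.N599.HO.Eq
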