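import Pool.Agent.N19.BR.StDefs

/-!
# A lower bound for the order of vanishing

`M / K` is a finite Galois extension of number fields, `F` a field between `K` and `M` with more than `N`
complex places, `ρ` a representation of `Gal(M / K)` of dimension `n`.  The space
`Hom(V^*, ℂ ⊗ X)^{Gal(M / F)}`, whose dimension is the order of vanishing of `L_S(s, χ|_F)` at `0`, has
dimension at least `n N`.
-/

set_option autoImplicit false

namespace Pool.Agent.N599.HO

open NumberField IsDedekindDomain Module
open Pool.Agent.N19.BR.SDef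

section
variable {K : Type} [Field K] (S : Set (HeightOneSpectrum (𝓞 K)))
  {M : Type} [Field M] [Algebra K M] {n : ℕ}
  (ρ : Gal(M/K) →* Matrix (Fin n) (Fin n) ℂ)
  {F : Type} [Field F] [Algebra K F] (f : F →ₐ[K] M)

/-- The dimension of `Hom(V_χ^*, ℂ ⊗ X)^{Gal(M / F)}`, which is the order of vanishing of `L_S(s, χ|_F)` at `0`,
is at least `N`. -/
def OrderAtLeast (N : ℕ) : Prop :=
  ∃ u : Fin N → Fin n → Place S M → ℂ, LinearIndependent ℂ u ∧ ∀ k, InHoms S ρ f (u k)

end

section
variable {K : Type} [Field K] {S : Set (HeightOneSpectrum (𝓞 K))}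
  {M : Type} [Field M] [Algebra K M] {n : ℕ}
  {ρ : Gal(M/K) →* Matrix (Fin n) (Fin n) ℂ}
  {F : Type} [Field F] [Algebra K F] {f : F →ₐ[K] M}

theorem OrderAtLeast.mono {N N' : ℕ} (h : OrderAtLeast S ρ f N') (hN : N ≤ N') :
    OrderAtLeast S ρ f N := by
  obtain ⟨u, hu, hi⟩ := h
  exact ⟨fun k => u (Fin.castLE hN k), hu.comp _ (Fin.castLE_injective hN), fun k => hi _⟩

theorem move_mul (σ τ : Gal(M/K)) (w : InfinitePlace M) :
    move (S := S) (σ * τ) (Sum.inl w) = move σ (move τ (Sum.inl w)) := by
  change Sum.inl ((σ * τ) • w) = Sum.inl (σ • τ • w)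
  rw [mul_smul]

theorem move_cancel (τ : Gal(M/K)) (w : InfinitePlace M) (W : Place S M) :
    move τ (Sum.inl w) = move τ W ↔ Sum.inl w = W := by
  constructor
  · intro h
    rcases W with W | W
    · change Sum.inl (τ • w) = Sum.inl (τ • W) at h
      rw [Sum.inl.injEq] at h
      rw [smul_left_cancel τ h]
    · exact absurd h (by change Sum.inl (τ • w) ≠ Sum.inr _; exact Sum.inl_ne_inr)
  · rintro rfl
    rfl

variable (S ρ f) in
open Classical in
/-- the element of `Hom(V^*, ℂ[places])^H` with value `x` at the place `w`, supported on the orbit of `w` -/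
noncomputable def base [Fintype Gal(M/K)] (w : InfinitePlace M) (x : Fin n → ℂ) (i : Fin n) (W : Place S M) :
    ℂ :=
  ∑ σ : Gal(M/K), if (∀ y : F, σ (f y) = f y) ∧ move σ (Sum.inl w) = W then ((ρ σ).mulVec x) i else 0

theorem base_equiv [Fintype Gal(M/K)] (w : InfinitePlace M) (x : Fin n → ℂ) (τ : Gal(M/K))
    (hτ : ∀ y : F, τ (f y) = f y) (i : Fin n) (W : Place S M) :
    ∑ j, ρ τ i j * base S ρ f w x j W = base S ρ f w x i (move τ W) := by
  classical
  unfold base
  simp only [Finset.mul_sum]
  rw [Finset.sum_comm]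
  refine Fintype.sum_equiv (Equiv.mulLeft τ) _ _ fun σ => ?_
  have h1 : (∀ y : F, (τ * σ) (f y) = f y) ↔ ∀ y : F, σ (f y) = f y := by
    refine forall_congr' fun y => ?_
    rw [AlgEquiv.mul_apply]
    constructor
    · intro h
      exact τ.injective (by rw [h, hτ])
    · intro h
      rw [h, hτ]
  have h2 : move (S := S) (τ * σ) (Sum.inl w) = move τ W ↔ move σ (Sum.inl w) = W := by
    rw [move_mul]
    exact move_cancel τ (σ • w) W
  change _ = if (∀ y : F, (τ * σ) (f y) = f y) ∧ move (τ * σ) (Sum.inl w) = move τ W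
    then ((ρ (τ * σ)).mulVec x) i else 0
  by_cases h : (∀ y : F, σ (f y) = f y) ∧ move σ (Sum.inl w) = W
  · rw [if_pos ⟨h1.2 h.1, h2.2 h.2⟩]
    simp only [if_pos h]
    rw [map_mul, ← Matrix.mulVec_mulVec]
    rfl
  · rw [if_neg fun h' => h ⟨h1.1 h'.1, h2.1 h'.2⟩]
    simp only [if_neg h, mul_zero, Finset.sum_const_zero]

theorem base_support [Fintype Gal(M/K)] (w : InfinitePlace M) (x : Fin n → ℂ) (i : Fin n) :
    (Function.support (base S ρ f w x i)).Finite := by
  classical
  refine (Set.finite_range (fun σ : Gal(M/K) => move (S := S) σ (Sum.inl w))).subset ?_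
  intro W hW
  by_contra hcon
  apply hW
  unfold base
  refine Finset.sum_eq_zero fun σ _ => ?_
  rw [if_neg]
  rintro ⟨-, h⟩
  exact hcon ⟨σ, h⟩

open Classical in
theorem base_finsum [Fintype Gal(M/K)] (w : InfinitePlace M) (x : Fin n → ℂ) (i : Fin n) :
    ∑ᶠ W, base S ρ f w x i W =
      ∑ σ : Gal(M/K), if (∀ y : F, σ (f y) = f y) then ((ρ σ).mulVec x) i else 0 := by
  unfold base
  have hs : ∀ σ ∈ (Finset.univ : Finset Gal(M/K)), (Function.support (fun W : Place S M =>
      if (∀ y : F, σ (f y) = f y) ∧ move σ (Sum.inl w) = W then ((ρ σ).mulVec x) i else 0)).Finite := by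
    intro σ _
    refine (Set.finite_singleton (move (S := S) σ (Sum.inl w))).subset ?_
    intro W hW
    by_contra hcon
    apply hW
    exact if_neg fun h => hcon h.2.symm
  rw [finsum_sum_comm _ _ hs]
  refine Finset.sum_congr rfl fun σ _ => ?_
  rw [finsum_eq_single _ (move (S := S) σ (Sum.inl w))]
  · simp
  · intro W hW
    exact if_neg fun h => hW h.2.symm

theorem smul_comap (σ : Gal(M/K)) (w : InfinitePlace M) (hσ : ∀ y : F, σ (f y) = f y) :
    (σ • w).comap (f : F →+* M) = w.comap (f : F →+* M) := by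
  ext y
  have h1 : σ⁻¹ (f y) = f y := by
    have h2 := congrArg (σ⁻¹ : Gal(M/K)) (hσ y)
    rw [← AlgEquiv.mul_apply, inv_mul_cancel, AlgEquiv.one_apply] at h2
    exact h2.symm
  rw [InfinitePlace.comap_apply, InfinitePlace.comap_apply, InfinitePlace.smul_apply]
  change w (σ.symm (f y)) = w (f y)
  exact congrArg w h1

theorem eq_one_of_fix (σ : Gal(M/K)) (w : InfinitePlace M) (hσ : ∀ y : F, σ (f y) = f y)
    (hw : (w.comap (f : F →+* M)).IsComplex) (h : σ • w = w) : σ = 1 := by
  letI : Algebra F M := (f : F →+* M).toAlgebra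
  let σ' : M ≃ₐ[F] M := AlgEquiv.ofRingEquiv (f := σ.toRingEquiv) fun y => hσ y
  have h1 : InfinitePlace.IsUnramified F w := InfinitePlace.isUnramified_iff.2 (Or.inr hw)
  have h2 : σ' ∈ MulAction.stabilizer Gal(M/F) w := by
    rw [MulAction.mem_stabilizer_iff]
    ext y
    have h3 := DFunLike.congr_fun h y
    rw [InfinitePlace.smul_apply] at h3 ⊢
    exact h3
  rw [h1.stabilizer_eq_bot, Subgroup.mem_bot] at h2
  ext y
  exact DFunLike.congr_fun h2 y

theorem base_self [Fintype Gal(M/K)] (w : InfinitePlace M) (hw : (w.comap (f : F →+* M)).IsComplex)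
    (x : Fin n → ℂ) (i : Fin n) : base S ρ f w x i (Sum.inl w) = x i := by
  classical
  unfold base
  rw [Finset.sum_eq_single (1 : Gal(M/K))]
  · rw [if_pos]
    · rw [map_one, Matrix.one_mulVec]
    · refine ⟨fun y => rfl, ?_⟩
      change Sum.inl ((1 : Gal(M/K)) • w) = _
      rw [one_smul]
  · intro σ _ hσ
    rw [if_neg]
    rintro ⟨h1, h2⟩
    change Sum.inl (σ • w) = _ at h2
    exact hσ (eq_one_of_fix σ w h1 hw (Sum.inl_injective h2))
  · intro h
    exact absurd (Finset.mem_univ _) h

theorem base_other [Fintype Gal(M/K)] (w w' : InfinitePlace M)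
    (hw : w.comap (f : F →+* M) ≠ w'.comap (f : F →+* M))
    (x : Fin n → ℂ) (i : Fin n) : base S ρ f w x i (Sum.inl w') = 0 := by
  classical
  unfold base
  refine Finset.sum_eq_zero fun σ _ => ?_
  rw [if_neg]
  rintro ⟨h1, h2⟩
  change Sum.inl (σ • w) = _ at h2
  apply hw
  rw [← Sum.inl_injective h2, smul_comap σ w h1]

end

/-- **The lower bound for the order.** -/
theorem order_ge {K : Type} [Field K] [NumberField K] {S : Set (HeightOneSpectrum (𝓞 K))}
    {M : Type} [Field M] [NumberField M] [Algebra K M] {n : ℕ}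
    (ρ : Gal(M/K) →* Matrix (Fin n) (Fin n) ℂ)
    {F : Type} [Field F] [NumberField F] [Algebra K F] (f : F →ₐ[K] M) {N : ℕ}
    (hN : N < InfinitePlace.nrComplexPlaces F) : OrderAtLeast S ρ f (n * N) := by
  classical
  have hfin : FiniteDimensional K M := by
    have : IsScalarTower ℚ K M := inferInstance
    exact FiniteDimensional.right ℚ K M
  haveI : Fintype Gal(M/K) := Fintype.ofFinite _
  -- the places
  letI : Algebra F M := (f : F →+* M).toAlgebra
  have hsurj : ∀ v : InfinitePlace F, ∃ w : InfinitePlace M, w.comap (f : F →+* M) = v := by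
    intro v
    have hFM : Algebra.IsAlgebraic F M := by
      have : IsScalarTower ℚ F M := inferInstance
      have h2 : FiniteDimensional F M := FiniteDimensional.right ℚ F M
      exact inferInstance
    exact InfinitePlace.comap_surjective (k := F) (K := M) v
  choose up hup using hsurj
  have hcard : Fintype.card (Fin (N + 1)) ≤ Fintype.card {v : InfinitePlace F // v.IsComplex} := by
    rw [Fintype.card_fin]
    exact hN
  obtain ⟨g⟩ := Function.Embedding.nonempty_of_card_le hcard
  let w : Fin (N + 1) → InfinitePlace M := fun k => up (g k).1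
  have hw : ∀ k, (w k).comap (f : F →+* M) = (g k).1 := fun k => hup _
  have hwc : ∀ k, ((w k).comap (f : F →+* M)).IsComplex := fun k => by rw [hw]; exact (g k).2
  have hne : ∀ k l, k ≠ l → (w k).comap (f : F →+* M) ≠ (w l).comap (f : F →+* M) := by
    intro k l hkl h
    rw [hw, hw] at h
    exact hkl (g.injective (Subtype.ext h))
  let u0 : Fin n × Fin N → Fin n → Place S M → ℂ := fun q i W =>
    base S ρ f (w q.2.castSucc) (Pi.single q.1 1) i W - base S ρ f (w (Fin.last N)) (Pi.single q.1 1) i W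
  have hu0 : ∀ q, InHoms S ρ f (u0 q) := by
    intro q
    refine ⟨fun i => ⟨?_, ?_⟩, fun τ hτ i W => ?_⟩
    · exact ((base_support _ _ i).union (base_support _ _ i)).subset (Function.support_sub _ _)
    · change ∑ᶠ W, (base S ρ f (w q.2.castSucc) (Pi.single q.1 1) i W -
        base S ρ f (w (Fin.last N)) (Pi.single q.1 1) i W) = 0
      rw [finsum_sub_distrib (base_support _ _ i) (base_support _ _ i), base_finsum, base_finsum, sub_self]
    · change ∑ j, ρ τ i j * (base S ρ f (w q.2.castSucc) (Pi.single q.1 1) j W -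
        base S ρ f (w (Fin.last N)) (Pi.single q.1 1) j W) = _
      simp only [mul_sub, Finset.sum_sub_distrib]
      rw [base_equiv _ _ τ hτ, base_equiv _ _ τ hτ]
  have hlin : LinearIndependent ℂ u0 := by
    rw [Fintype.linearIndependent_iff]
    intro c hc q
    have h1 := congrFun (congrFun hc q.1) (Sum.inl (w q.2.castSucc))
    rw [Finset.sum_apply, Finset.sum_apply] at h1
    rw [Finset.sum_eq_single q] at h1
    · have h2 : u0 q q.1 (Sum.inl (w q.2.castSucc)) = 1 := by
        change base S ρ f (w q.2.castSucc) (Pi.single q.1 1) q.1 (Sum.inl (w q.2.castSucc)) -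
          base S ρ f (w (Fin.last N)) (Pi.single q.1 1) q.1 (Sum.inl (w q.2.castSucc)) = 1
        rw [base_self _ (hwc _), base_other _ _ (hne _ _ (Fin.castSucc_lt_last q.2).ne'), Pi.single_eq_same,
          sub_zero]
      rw [Pi.smul_apply, Pi.smul_apply, h2, smul_eq_mul, mul_one] at h1
      exact h1
    · intro r _ hr
      have h2 : u0 r q.1 (Sum.inl (w q.2.castSucc)) = 0 := by
        change base S ρ f (w r.2.castSucc) (Pi.single r.1 1) q.1 (Sum.inl (w q.2.castSucc)) -
          base S ρ f (w (Fin.last N)) (Pi.single r.1 1) q.1 (Sum.inl (w q.2.castSucc)) = 0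
        rw [base_other _ _ (hne _ _ (Fin.castSucc_lt_last q.2).ne'), sub_zero]
        by_cases h3 : r.2 = q.2
        · rw [h3, base_self _ (hwc _)]
          have h4 : q.1 ≠ r.1 := fun h => hr (Prod.ext h.symm h3)
          exact Pi.single_eq_of_ne h4 _
        · exact base_other _ _ (hne _ _ fun h => h3 (Fin.castSucc_injective _ h)) _ _
      rw [Pi.smul_apply, Pi.smul_apply, h2, smul_zero]
    · intro h
      exact absurd (Finset.mem_univ _) h
  refine ⟨fun k => u0 (finProdFinEquiv.symm k), hlin.comp _ finProdFinEquiv.symm.injective,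
    fun k => hu0 _⟩

end Pool.Agent.N599.HO
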