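import Pool.Agent.N599.HO.Pure
import Pool.Agent.N599.HO.Ord
import Pool.Agent.N19.BR.AMain
import Pool.Agent.N19.BR.StMain

/-!
# The lists of radical fields
-/

set_option autoImplicit false

namespace Pool.Agent.N599.HO

open NumberField IsDedekindDomain
open Pool.Agent.R433.MD
open Pool.Agent.N19.BR
open Pool.Agent.N19.BR.TDef (FieldList)
open Pool.Agent.N19.BR.SDef

/-- For every field `F_j` in the list there is a prime number `q > N` such that `F_j` has degree `q` or `q ^ 2`
over `K` and is generated over `K` by `q`-th roots of natural numbers, and `F_j` has more than `N` complex places;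
and the coefficient `c` is `1`. -/
def RadicalList {K : Type} [Field K] (N : ℕ) (Y : FieldList K) : Prop :=
  Y.c = 1 ∧ ∀ j, (∃ q : ℕ, q.Prime ∧ N < q ∧
    (Module.finrank K (Y.F j) = q ∨ Module.finrank K (Y.F j) = q ^ 2) ∧
    Algebra.adjoin K {x : Y.F j | ∃ c : ℕ, x ^ q = (c : Y.F j)} = ⊤) ∧
    N < InfinitePlace.nrComplexPlaces (Y.F j)

section
variable {K : Type} [Field K] [NumberField K]

theorem img_pure {N : ℕ} (Z : Ext K) (h : Pure N Z) : Pure N (⟨img Z⟩ : Ext K) := by
  obtain ⟨h1, q, hq, hN, hd, hadj⟩ := h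
  let e : Z.F ≃ₐ[K] img Z := imgEquiv Z
  refine ⟨?_, q, hq, hN, ?_, ?_⟩
  · rw [← real_copy (e : Z.F ≃+* img Z)]
    exact h1
  · have h2 : Module.finrank K (img Z) = Module.finrank K Z.F := (LinearEquiv.finrank_eq e.toLinearEquiv).symm
    change Module.finrank K (img Z) = q ∨ Module.finrank K (img Z) = q * q
    rw [h2]
    exact hd
  · change Algebra.adjoin K {x : img Z | ∃ c : ℕ, x ^ q = (c : img Z)} = ⊤
    rw [eq_top_iff]
    have h3 : (Algebra.adjoin K {x : Z.F | ∃ c : ℕ, x ^ q = (c : Z.F)}).map (e : Z.F →ₐ[K] img Z) ≤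
        Algebra.adjoin K {x : img Z | ∃ c : ℕ, x ^ q = (c : img Z)} := by
      rw [AlgHom.map_adjoin]
      refine Algebra.adjoin_mono ?_
      rintro _ ⟨x, ⟨c, hc⟩, rfl⟩
      exact ⟨c, by rw [← map_pow, hc, map_natCast]⟩
    refine le_trans ?_ h3
    rw [hadj]
    intro y _
    exact ⟨e.symm y, trivial, e.apply_symm_apply y⟩

theorem pure_complex {N : ℕ} (Z : Ext K) (h : Pure N Z) : N < InfinitePlace.nrComplexPlaces Z.F := by
  obtain ⟨h1, q, hq, hN, hd, -⟩ := h
  rcases hd with hd | hd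
  · exact complex_of_degree (F := K) hd h1 hN
  · exact complex_of_degree (F := K) hd h1 (by nlinarith [hq.two_le])

/-- **The lists.** -/
theorem radical_list (K : Type) [Field K] [NumberField K] (N : ℕ) :
    ∃ Y : FieldList K, RadicalList N Y ∧ IsRel K (fun j => (⟨Y.F j⟩ : Ext K)) Y.e 1 := by
  obtain ⟨ι, hι, Z, e, hr, hP⟩ := exact_rel (K := K) (P := Pure N) fun p hp => good_pure p hp N K
  let g : Fin (Fintype.card ι) ≃ ι := (Fintype.equivFin ι).symm
  have hr' := isRel_img' (hr.reindex g)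
  refine ⟨⟨Fintype.card ι, fun j => img (Z (g j)), fun j => img_nf (Z (g j)), fun j => e (g j), 1, one_ne_zero⟩,
    ⟨rfl, fun j => ?_⟩, hr'⟩
  have h1 := img_pure (Z (g j)) (hP (g j))
  refine ⟨?_, pure_complex _ h1⟩
  obtain ⟨-, q, hq, hN, hd, hadj⟩ := h1
  refine ⟨q, hq, by omega, ?_, hadj⟩
  rw [pow_two]
  exact hd

end

end Pool.Agent.N599.HO
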