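import Pool.Agent.N599.HO.Cnt
import Pool.Agent.N19.BR.Core

/-!
# Relations with pure fields

For an odd prime number `q` and a number field `K` there is a relation `∑ e_i [Z_i] = q [K]` between permutation
characters with fields `Z_i` of degree `q` or `q ^ 2` over `K` which are generated by `q`-th roots; a real
embedding of `K` has exactly one extension to a real embedding of `Z_i`, so `Z_i` has many complex places.
-/

set_option autoImplicit false

namespace Pool.Agent.N599.HO

open NumberField Polynomial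
open Pool.Agent.R433.MD
open Pool.Agent.N19.BR

section
variable {K : Type} [Field K] [NumberField K]

/-- `K(c^{1/q})` -/
theorem exists_root_field {q : ℕ} (hq : q.Prime) {c : K} (hc : ∀ γ : K, γ ^ q ≠ c) :
    ∃ (Z : Ext K) (α : Z.F), α ^ q = algebraMap K Z.F c ∧ Module.finrank K Z.F = q ∧
      Algebra.adjoin K {α} = ⊤ ∧
      (∀ (E : Type) [Field E] (u v : Z.F →+* E), (∀ x : K, u (algebraMap K Z.F x) = v (algebraMap K Z.F x)) →
        u α = v α → u = v) ∧
      ∀ (Ω : Type) [Field Ω] [Algebra K Ω] (σ : Ω ≃ₐ[K] Ω),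
        cnt Z.F σ = rt q (σ : Ω ≃+* Ω) (algebraMap K Ω c) := by
  have hirr : Irreducible (X ^ q - C c) := X_pow_sub_C_irreducible_of_prime hq hc
  have hfact : Fact (Irreducible (X ^ q - C c)) := ⟨hirr⟩
  let B : PowerBasis K (AdjoinRoot (X ^ q - C c)) := AdjoinRoot.powerBasis hirr.ne_zero
  have hfin : Module.Finite K (AdjoinRoot (X ^ q - C c)) := B.finite
  have hch : CharZero (AdjoinRoot (X ^ q - C c)) :=
    charZero_of_injective_algebraMap (algebraMap K _).injective
  have hnf : NumberField (AdjoinRoot (X ^ q - C c)) := NumberField.of_module_finite K _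
  have hroot : (AdjoinRoot.root (X ^ q - C c)) ^ q = algebraMap K _ c := by
    have h1 := AdjoinRoot.eval₂_root (X ^ q - C c)
    rw [eval₂_sub, eval₂_pow, eval₂_X, eval₂_C, sub_eq_zero] at h1
    exact h1
  refine ⟨⟨AdjoinRoot (X ^ q - C c)⟩, AdjoinRoot.root _, hroot, ?_, AdjoinRoot.adjoinRoot_eq_top, ?_, ?_⟩
  · change Module.finrank K (AdjoinRoot (X ^ q - C c)) = q
    rw [B.finrank, AdjoinRoot.powerBasis_dim, natDegree_X_pow_sub_C]
  · intro E _ u v h1 h2
    refine AdjoinRoot.ringHom_ext (RingHom.ext fun x => h1 x) h2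
  · intro Ω _ _ σ
    unfold cnt rt
    refine Nat.card_congr
      { toFun := fun τ => ⟨τ.1 (AdjoinRoot.root _), ?_, τ.2 _⟩
        invFun := fun x => ⟨AdjoinRoot.liftAlgHom (X ^ q - C c) (Algebra.ofId K Ω) x.1 ?_, ?_⟩
        left_inv := fun τ => ?_
        right_inv := fun x => ?_ }
    · rw [← map_pow, hroot, AlgHom.commutes]
    · rw [eval₂_sub, eval₂_pow, eval₂_X, eval₂_C, sub_eq_zero]
      exact x.2.1
    · intro y
      have h1 : ((σ : Ω →ₐ[K] Ω).comp (AdjoinRoot.liftAlgHom (X ^ q - C c) (Algebra.ofId K Ω) x.1 (by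
          rw [eval₂_sub, eval₂_pow, eval₂_X, eval₂_C, sub_eq_zero]
          exact x.2.1))) = AdjoinRoot.liftAlgHom (X ^ q - C c) (Algebra.ofId K Ω) x.1 (by
          rw [eval₂_sub, eval₂_pow, eval₂_X, eval₂_C, sub_eq_zero]
          exact x.2.1) := by
        apply AdjoinRoot.algHom_ext
        rw [AlgHom.comp_apply, AdjoinRoot.liftAlgHom_root]
        exact x.2.2
      exact DFunLike.congr_fun h1 y
    · apply Subtype.ext
      apply AdjoinRoot.algHom_ext
      rw [AdjoinRoot.liftAlgHom_root]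
    · apply Subtype.ext
      exact AdjoinRoot.liftAlgHom_root _ _ _ _

/-- the fields in the relations: at most as many real embeddings as `K`, degree `q` or `q ^ 2` for a prime
number `q ≥ 2 N + 3`, generated by `q`-th roots of natural numbers -/
def Pure (N : ℕ) (Z : Ext K) : Prop :=
  Nat.card (Z.F →+* ℝ) ≤ Nat.card (K →+* ℝ) ∧ ∃ q : ℕ, q.Prime ∧ 2 * N + 3 ≤ q ∧
    (Module.finrank K Z.F = q ∨ Module.finrank K Z.F = q * q) ∧
    Algebra.adjoin K {x : Z.F | ∃ c : ℕ, x ^ q = (c : Z.F)} = ⊤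

omit [NumberField K] in
theorem radical_one {F : Type} [Field F] [Algebra K F] {q : ℕ} {α : F} {c : ℕ} (hα : α ^ q = (c : F))
    (h : Algebra.adjoin K {α} = ⊤) : Algebra.adjoin K {x : F | ∃ c : ℕ, x ^ q = (c : F)} = ⊤ := by
  rw [eq_top_iff, ← h]
  exact Algebra.adjoin_mono (Set.singleton_subset_iff.2 ⟨c, hα⟩)

omit [NumberField K] in
theorem radical_two {F E : Type} [Field F] [Field E] [Algebra K F] [Algebra F E] [Algebra K E]
    [IsScalarTower K F E] {q : ℕ} {α : F} {c d : ℕ} (hα : α ^ q = (c : F)) (h : Algebra.adjoin K {α} = ⊤)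
    {β : E} (hβ : β ^ q = (d : E)) (h' : Algebra.adjoin F {β} = ⊤) :
    Algebra.adjoin K {x : E | ∃ c : ℕ, x ^ q = (c : E)} = ⊤ := by
  set A := Algebra.adjoin K {x : E | ∃ c : ℕ, x ^ q = (c : E)} with hA
  have h1 : ∀ x : F, algebraMap F E x ∈ A := by
    intro x
    have hx : x ∈ Algebra.adjoin K {α} := by rw [h]; trivial
    induction hx using Algebra.adjoin_induction with
    | mem z hz =>
      rw [Set.mem_singleton_iff] at hz
      subst hz
      exact Algebra.subset_adjoin ⟨c, by rw [← map_pow, hα, map_natCast]⟩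
    | algebraMap r =>
      rw [← IsScalarTower.algebraMap_apply]
      exact A.algebraMap_mem r
    | add a b _ _ ha hb => rw [map_add]; exact A.add_mem ha hb
    | mul a b _ _ ha hb => rw [map_mul]; exact A.mul_mem ha hb
  rw [eq_top_iff]
  intro y _
  have hy : y ∈ Algebra.adjoin F {β} := by rw [h']; trivial
  induction hy using Algebra.adjoin_induction with
  | mem z hz =>
    rw [Set.mem_singleton_iff] at hz
    subst hz
    exact Algebra.subset_adjoin ⟨d, hβ⟩
  | algebraMap r => exact h1 r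
  | add a b _ _ ha hb => exact A.add_mem (ha trivial) (hb trivial)
  | mul a b _ _ ha hb => exact A.mul_mem (ha trivial) (hb trivial)

theorem real_le_of_root {F E : Type} [Field F] [Field E] [NumberField F] [NumberField E] [Algebra F E] {q : ℕ}
    (hq : Odd q) {α : E} {c : F} (hα : α ^ q = algebraMap F E c)
    (h : ∀ u v : E →+* ℝ, (∀ x : F, u (algebraMap F E x) = v (algebraMap F E x)) → u α = v α → u = v) :
    Nat.card (E →+* ℝ) ≤ Nat.card (F →+* ℝ) := by
  have hfin : Finite (F →+* ℝ) := finite_real F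
  refine Nat.card_le_card_of_injective (fun u : E →+* ℝ => u.comp (algebraMap F E)) ?_
  intro u v huv
  have h1 : ∀ x : F, u (algebraMap F E x) = v (algebraMap F E x) := fun x => DFunLike.congr_fun huv x
  refine h u v h1 ?_
  have h2 : u α ^ q = v α ^ q := by
    rw [← map_pow, ← map_pow, hα, h1]
  exact (hq.strictMono_pow).injective h2

/-- the number of complex places -/
theorem complex_of_degree {F E : Type} [Field F] [Field E] [NumberField F] [NumberField E] [Algebra F E]
    {d : ℕ} (hd : Module.finrank F E = d) (h : Nat.card (E →+* ℝ) ≤ Nat.card (F →+* ℝ)) {N : ℕ}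
    (hN : 2 * N + 3 ≤ d) : N < InfinitePlace.nrComplexPlaces E := by
  classical
  have h1 := InfinitePlace.card_add_two_mul_card_eq_rank E
  have h2 : InfinitePlace.nrRealPlaces E ≤ Nat.card (E →+* ℝ) := by
    have hfin : Finite (E →+* ℝ) := finite_real E
    rw [InfinitePlace.nrRealPlaces, ← Nat.card_eq_fintype_card]
    refine Nat.card_le_card_of_injective
      (fun w : {w : InfinitePlace E // w.IsReal} => InfinitePlace.embedding_of_isReal w.2) ?_
    intro w w' hww
    apply Subtype.ext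
    have h3 : w.1.embedding = w'.1.embedding := by
      ext x
      have h4 := DFunLike.congr_fun hww x
      have h5 := InfinitePlace.embedding_of_isReal_apply w.2 x
      have h6 := InfinitePlace.embedding_of_isReal_apply w'.2 x
      rw [← h5, ← h6]
      exact congrArg _ h4
    rw [← InfinitePlace.mk_embedding w.1, ← InfinitePlace.mk_embedding w'.1, h3]
  have h3 : Nat.card (F →+* ℝ) ≤ Module.finrank ℚ F := by
    rw [← Embeddings.card F ℂ, ← Nat.card_eq_fintype_card]
    refine Nat.card_le_card_of_injective (fun u : F →+* ℝ => Complex.ofRealHom.comp u) ?_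
    intro u v huv
    ext x
    have h4 := DFunLike.congr_fun huv x
    exact Complex.ofReal_injective h4
  have h4 : Module.finrank ℚ E = Module.finrank ℚ F * d := by
    have _ : IsScalarTower ℚ F E := inferInstance
    rw [← hd]
    exact (Module.finrank_mul_finrank ℚ F E).symm
  have h5 : 1 ≤ Module.finrank ℚ F := Module.finrank_pos
  rw [h4] at h1
  nlinarith

/-- **The relation with pure fields.** -/
theorem good_pure (p : ℕ) (hp : p.Prime) (N : ℕ) (K : Type) [Field K] [NumberField K] :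
    Good p K (Pure N) := by
  classical
  obtain ⟨q, hqN, hq⟩ := Nat.exists_infinite_primes (2 * N + 3 + p)
  have hqp : ¬ p ∣ q := by
    intro h
    rcases (Nat.dvd_prime hq).1 h with h1 | h1
    · exact hp.ne_one h1
    · omega
  have hodd : Odd q := hq.odd_of_ne_two (by omega)
  obtain ⟨l1, hl1, h1⟩ := exists_prime_not_pow K hq.two_le
  obtain ⟨Z1, α1, hα1, hfr1, hadj1, hext1, hcnt1⟩ := exists_root_field hq h1
  obtain ⟨l2, hl2, h2⟩ := exists_prime_not_pow Z1.F hq.two_le
  have h2' : ∀ γ : Z1.F, γ ^ q ≠ algebraMap K Z1.F (l2 : K) := fun γ => by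
    rw [map_natCast]
    exact h2 γ
  have h2K : ∀ γ : K, γ ^ q ≠ (l2 : K) := fun γ hγ => by
    apply h2' (algebraMap K Z1.F γ)
    rw [← map_pow, hγ]
  obtain ⟨Y1, β, hβ, hfr2, hadj2, hext2, hcnt2⟩ := exists_root_field hq h2
  -- the pure fields
  let c : Option (Fin q) → K := fun j => j.elim (l2 : K) (fun i => (l1 : K) * (l2 : K) ^ (i : ℕ))
  have hc : ∀ j, ∀ γ : K, γ ^ q ≠ c j := by
    rintro (_ | i)
    · exact h2K
    · exact not_pow hq hα1 h1 h2' i.2
  choose Z α hα hfr hadj hext hcnt using fun j => exists_root_field hq (hc j)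
  let W : Option (Option (Fin q)) → Ext K := fun j => j.elim (Z1.restrict Y1) Z
  refine ⟨Option (Option (Fin q)), inferInstance, W, fun j => j.elim (-1) fun _ => 1, q, hqp, ?_, ?_⟩
  · intro Ω _ _ _ σ
    have hch : CharZero Ω := charZero_of_injective_algebraMap (algebraMap K Ω).injective
    rw [Fintype.sum_option, Fintype.sum_option]
    change -1 * (cnt (Z1.restrict Y1).F σ : ℤ) + (1 * (cnt (Z none).F σ : ℤ) +
      ∑ i : Fin q, 1 * (cnt (Z (some i)).F σ : ℤ)) = q
    have hY : cnt (Z1.restrict Y1).F σ =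
        cnt Z1.F σ * rt q (σ : Ω ≃+* Ω) (algebraMap K Ω (l2 : K)) := by
      have hfin : Finite {τ : Z1.F →ₐ[K] Ω // ∀ x, σ (τ x) = τ x} := by
        have : Finite (Z1.F →ₐ[K] Ω) := inferInstance
        exact inferInstance
      let _ : Fintype {τ : Z1.F →ₐ[K] Ω // ∀ x, σ (τ x) = τ x} := Fintype.ofFinite _
      rw [cnt_restrict]
      have h3 : ∀ τ : {τ : Z1.F →ₐ[K] Ω // ∀ x, σ (τ x) = τ x},
          cntOver Z1 Y1 σ τ.1 = rt q (σ : Ω ≃+* Ω) (algebraMap K Ω (l2 : K)) := by
        intro τ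
        rw [cntOver_eq Z1 Y1 σ τ.1 τ.2]
        let _ : Algebra Z1.F Ω := τ.1.toRingHom.toAlgebra
        have h4 := hcnt2 Ω (AlgEquiv.ofRingEquiv (f := σ.toRingEquiv) (fun z => τ.2 z) : Ω ≃ₐ[Z1.F] Ω)
        rw [map_natCast] at h4 ⊢
        exact h4
      rw [Finset.sum_congr rfl fun τ _ => h3 τ, Finset.sum_const, Finset.card_univ, smul_eq_mul, cnt,
        Nat.card_eq_fintype_card]
    rw [hY, hcnt1 Ω σ, hcnt none Ω σ, Finset.sum_congr rfl fun i _ => by rw [hcnt (some i) Ω σ]]
    have ha : algebraMap K Ω (l1 : K) ≠ 0 := by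
      rw [map_natCast]
      exact_mod_cast hl1.ne_zero
    have hb : algebraMap K Ω (l2 : K) ≠ 0 := by
      rw [map_natCast]
      exact_mod_cast hl2.ne_zero
    have h5 := rt_sum hq (σ : Ω ≃+* Ω) ha hb (σ.commutes _) (σ.commutes _)
    have h6 : ∀ i : Fin q, algebraMap K Ω (c (some i)) =
        algebraMap K Ω (l1 : K) * algebraMap K Ω (l2 : K) ^ (i : ℕ) := by
      intro i
      change algebraMap K Ω ((l1 : K) * (l2 : K) ^ (i : ℕ)) = _
      rw [map_mul, map_pow]
    simp only [h6, one_mul]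
    have h7 : algebraMap K Ω (c none) = algebraMap K Ω (l2 : K) := rfl
    rw [h7]
    have h8 : ((∑ j : Fin q, rt q (σ : Ω ≃+* Ω) (algebraMap K Ω (l1 : K) * algebraMap K Ω (l2 : K) ^ (j : ℕ)) +
        rt q (σ : Ω ≃+* Ω) (algebraMap K Ω (l2 : K)) : ℕ) : ℤ) =
        ((rt q (σ : Ω ≃+* Ω) (algebraMap K Ω (l1 : K)) * rt q (σ : Ω ≃+* Ω) (algebraMap K Ω (l2 : K)) + q : ℕ) :
          ℤ) := by
      exact_mod_cast h5
    push_cast at h8 ⊢
    linarith
  · have hZ1 : Nat.card (Z1.F →+* ℝ) ≤ Nat.card (K →+* ℝ) :=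
      real_le_of_root hodd hα1 (hext1 ℝ)
    have hY1 : Nat.card (Y1.F →+* ℝ) ≤ Nat.card (Z1.F →+* ℝ) :=
      real_le_of_root hodd hβ (hext2 ℝ)
    rintro (_ | j)
    · refine ⟨hY1.trans hZ1, q, hq, by omega, Or.inr ?_, ?_⟩
      · have h3 := finrank_restrict Z1 Y1
        rw [hfr1, hfr2] at h3
        exact h3
      · let _ : Algebra K Y1.F := ((algebraMap Z1.F Y1.F).comp (algebraMap K Z1.F)).toAlgebra
        have _ : IsScalarTower K Z1.F Y1.F := IsScalarTower.of_algebraMap_eq' rfl
        rw [map_natCast] at hα1 hβ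
        exact radical_two (K := K) (F := Z1.F) (E := Y1.F) hα1 hadj1 hβ hadj2
    · have h3 : Nat.card ((Z j).F →+* ℝ) ≤ Nat.card (K →+* ℝ) :=
        real_le_of_root hodd (hα j) (hext j ℝ)
      refine ⟨h3, q, hq, by omega, Or.inl (hfr j), ?_⟩
      have h4 : ∃ m : ℕ, c j = (m : K) := by
        rcases j with _ | i
        · exact ⟨l2, rfl⟩
        · exact ⟨l1 * l2 ^ (i : ℕ), by push_cast; rfl⟩
      obtain ⟨m, hm⟩ := h4
      have h5 : α j ^ q = ((m : ℕ) : (Z j).F) := by rw [hα j, hm, map_natCast]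
      exact radical_one h5 (hadj j)

end

end Pool.Agent.N599.HO
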